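import Mathlib
import Pool.Agent.Y467.QP.Count
import Pool.Agent.Y467.QP.Posp

set_option autoImplicit false

/-!
# The number of Q-points is finite or equal to its own countable power
-/

namespace Pool.Agent.Results.MP_97d187_lc.CountablePowers

open Pool.Agent.H562R3 Set

/-- A Q-point: a nonprincipal ultrafilter on the natural numbers such that for every partition of the
natural numbers into finite sets some member of the ultrafilter meets every piece in at most one
point. -/
def IsQPoint (U : Ultrafilter ℕ) : Prop :=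
  (∀ n : ℕ, ({n} : Set ℕ) ∉ U) ∧
  ∀ P : Set (Set ℕ), Setoid.IsPartition P → (∀ p ∈ P, p.Finite) →
    ∃ X ∈ U, ∀ p ∈ P, (X ∩ p).Subsingleton

/-- The isomorphism relation between Q-points: `V` is the image of `U` under a permutation of the
natural numbers. -/
def isoSetoid : Setoid {U : Ultrafilter ℕ // IsQPoint U} where
  r U V := ∃ σ : Equiv.Perm ℕ, U.1.map σ = V.1
  iseqv := by
    refine ⟨fun U => ⟨1, ?_⟩, ?_, ?_⟩
    · ext s
      exact Iff.rfl
    · rintro U V ⟨σ, hσ⟩
      refine ⟨σ.symm, ?_⟩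
      rw [← hσ]
      ext s
      show σ ⁻¹' (σ.symm ⁻¹' s) ∈ U.1 ↔ s ∈ U.1
      rw [← Set.preimage_comp]
      simp
    · rintro U V W ⟨σ, hσ⟩ ⟨τ, hτ⟩
      refine ⟨σ.trans τ, ?_⟩
      rw [← hτ, ← hσ]
      ext s
      exact Iff.rfl

/-- The number of Q-points up to isomorphism. -/
noncomputable def numQ : Cardinal.{0} := Cardinal.mk (Quotient isoSetoid)

/-- `U` is not a limit point of any countable set of other nonprincipal ultrafilters (for
nonprincipal `U` this says that `U` is a weak P-point). -/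
def IsWeakPPoint (U : Ultrafilter ℕ) : Prop :=
  ∀ S : Set (Ultrafilter ℕ), S.Countable → (∀ p ∈ S, ∀ n : ℕ, ({n} : Set ℕ) ∉ p) → U ∉ S →
    ∃ X ∈ U, ∀ p ∈ S, X ∉ p

/-- the number of Q-points is at least the number of countable sequences of classes, up to a factor
`𝔠` -/
theorem pow_le [Infinite (Quotient isoSetoid)] :
    numQ ^ Cardinal.aleph0 ≤ Cardinal.mk {U : Ultrafilter ℕ // IsQPoint U} * Cardinal.continuum := by
  classical
  let K := Quotient isoSetoid
  obtain ⟨e⟩ : Nonempty (List K ≃ K) := Cardinal.eq.mp (Cardinal.mk_list_eq_mk K)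
  let u : (ℕ → K) → ℕ → Ultrafilter ℕ := fun f k => (e ((List.range k).map f)).out.1
  have hVQ : ∀ f k, IsQPoint (u f k) := fun f k => (e ((List.range k).map f)).out.2
  have hQt : ∀ f k, Pool.Agent.Y467.QP.QPt (u f k) := fun f k => hVQ f k
  have hcls : ∀ f f' k k', (∃ σ : Equiv.Perm ℕ, (u f k).map σ = u f' k') →
      e ((List.range k).map f) = e ((List.range k').map f') := by
    intro f f' k k' h
    have h1 : isoSetoid (e ((List.range k).map f)).out (e ((List.range k').map f')).out := h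
    have h2 : (⟦(e ((List.range k).map f)).out⟧ : K) = ⟦(e ((List.range k').map f')).out⟧ :=
      Quotient.sound h1
    simpa only [Quotient.out_eq] using h2
  have hinj : ∀ f d b, Function.Injective (fun k => (u f k).map (g b d)) := by
    intro f d b j k hjk
    exact (Pool.Agent.Y467.QP.seg_inj e.injective f f j k (hcls f f j k
      (iso_of_map_eq (hVQ f j).1 (g b d) (g_fin b d) ((hQt f j).sel _ (g_fin b d))
      ((hQt f k).sel _ (g_fin b d)) hjk))).1
  obtain ⟨D, hDc, hD⟩ := dNum_mem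
  let ι := dNum.ord.ToType
  have hιc : Cardinal.mk ι = Cardinal.mk D := by
    rw [hDc]
    simp [ι]
  obtain ⟨φ⟩ := Cardinal.eq.mp hιc
  have hseg : ∀ a : ι, Cardinal.mk (Set.Iio a) < dNum := fun a => Cardinal.mk_Iio_toType_ord_lt a
  have hW : ∀ f : ℕ → K, ∃ W : Ultrafilter ℕ, (Set.univ : Set ℕ) ∈ W ∧
      (∀ s : Set ℕ, s.Finite → s ∉ W) ∧
      ∀ a : ι, ∀ b, ∃ A ∈ W, Good (fun k => (u f k).map (g b (φ a).1)) A := by
    intro f
    exact exists_good_ultra hseg (fun a b k => (u f k).map (g b (φ a).1)) (fun a b => hinj f _ b)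
      Set.univ Set.infinite_univ
  choose W hWb hWf hWg using hW
  have hWg' : ∀ f, ∀ d ∈ D, ∀ b, ∃ A ∈ W f, Good (fun k => (u f k).map (g b d)) A := by
    intro f d hd b
    have := hWg f (φ.symm ⟨d, hd⟩) b
    simpa using this
  have hnp : ∀ f, ∀ n : ℕ, ({n} : Set ℕ) ∉ (W f).bind (u f) := by
    intro f n hn
    rw [bind_mem] at hn
    obtain ⟨k, hk⟩ := Ultrafilter.nonempty_of_mem hn
    exact (hVQ f k).1 n hk
  have hQ : ∀ f, IsQPoint ((W f).bind (u f)) := by
    intro f
    have h1 : Pool.Agent.Y467.QP.QPt ((W f).bind (u f)) := by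
      apply Pool.Agent.Y467.QP.qPt_of_sel hD (hnp f)
      intro d hd b
      exact limit_sel (hinj f d b) (fun k => (hQt f k).sel _ (g_fin b d)) (W f) (hWf f)
        (hWg' f d hd b)
    exact h1
  obtain ⟨d0, hd0, _⟩ := hD (fun _ => 0)
  have hφ : ∀ f, ∃ φ : ℕ → ℕ, {k | φ ⁻¹' {k} ∈ u f k} ∈ W f := fun f =>
    Pool.Agent.Y467.QP.index_fun (hinj f d0 false) (hWf f) (hWg' f d0 hd0 false)
  choose ψ hψ using hφ
  let Φ : (ℕ → K) → {U : Ultrafilter ℕ // IsQPoint U} × (ℕ → ℕ) := fun f =>
    (⟨(W f).bind (u f), hQ f⟩, ψ f)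
  have hΦ : Function.Injective Φ := by
    intro f f' hff
    have h1 : (W f).bind (u f) = (W f').bind (u f') := congrArg (fun x => x.1.1) hff
    have h2 : ψ f = ψ f' := congrArg Prod.snd hff
    have h3 := hψ f'
    rw [← h2] at h3
    obtain ⟨h4, h5⟩ := Pool.Agent.Y467.QP.bind_inj h1 (hψ f) h3
    funext i
    have h6 : ({k | k ≤ i} : Set ℕ)ᶜ ∈ W f :=
      Ultrafilter.compl_mem_iff_notMem.mpr (hWf f _ (Set.finite_le_nat i))
    obtain ⟨k, hk1, hk2⟩ := Ultrafilter.nonempty_of_mem (Filter.inter_mem h5 h6)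
    have hk3 : i < k := by
      simp only [Set.mem_compl_iff, Set.mem_ofPred_eq, not_le] at hk2
      exact hk2
    have hk4 : u f k = u f' k := hk1
    have h7 := hcls f f' k k ⟨1, by
      rw [hk4]
      ext s
      exact Iff.rfl⟩
    exact (Pool.Agent.Y467.QP.seg_inj e.injective f f' k k h7).2 i hk3
  have hle := Cardinal.mk_le_of_injective hΦ
  have h8 : Cardinal.mk (ℕ → K) = numQ ^ Cardinal.aleph0 := by
    rw [← Cardinal.mk_nat, numQ, Cardinal.power_def]
  have h9 : Cardinal.mk ({U : Ultrafilter ℕ // IsQPoint U} × (ℕ → ℕ)) =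
      Cardinal.mk {U : Ultrafilter ℕ // IsQPoint U} * Cardinal.continuum := by
    simp
  rw [h8, h9] at hle
  exact hle

theorem mk_le : Cardinal.mk {U : Ultrafilter ℕ // IsQPoint U} ≤ numQ * Cardinal.continuum := by
  classical
  have hex : ∀ U : {U : Ultrafilter ℕ // IsQPoint U}, ∃ σ : Equiv.Perm ℕ,
      (⟦U⟧ : Quotient isoSetoid).out.1.map σ = U.1 := by
    intro U
    have h : isoSetoid (⟦U⟧ : Quotient isoSetoid).out U := Quotient.mk_out U
    exact h
  choose σ hσ using hex
  have hinj : Function.Injective (fun U : {U : Ultrafilter ℕ // IsQPoint U} =>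
      ((⟦U⟧ : Quotient isoSetoid), (σ U : ℕ → ℕ))) := by
    intro U V h
    have h1 : (⟦U⟧ : Quotient isoSetoid) = ⟦V⟧ := congrArg Prod.fst h
    have h2 : (σ U : ℕ → ℕ) = σ V := congrArg Prod.snd h
    apply Subtype.ext
    rw [← hσ U, ← hσ V, h1, h2]
  have hle := Cardinal.mk_le_of_injective hinj
  have h9 : Cardinal.mk (Quotient isoSetoid × (ℕ → ℕ)) = numQ * Cardinal.continuum := by
    simp [numQ]
  rw [h9] at hle
  exact hle

/-- almost disjoint sets coded by the branches of the binary tree -/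
def branch (f : ℕ → Bool) : Set ℕ :=
  Set.range (fun n => Encodable.encode ((List.range n).map f))

theorem branch_inj (f f' : ℕ → Bool) (n n' : ℕ)
    (h : Encodable.encode ((List.range n).map f) = Encodable.encode ((List.range n').map f')) :
    n = n' ∧ ∀ i < n, f i = f' i := by
  have h1 : (List.range n).map f = (List.range n').map f' := Encodable.encode_injective h
  have h2 : n = n' := by
    have := congrArg List.length h1
    simpa using this
  subst h2
  refine ⟨rfl, fun i hi => ?_⟩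
  have h3 : ((List.range n).map f)[i]? = ((List.range n).map f')[i]? := by rw [h1]
  simpa [hi] using h3

theorem branch_infinite (f : ℕ → Bool) : (branch f).Infinite := by
  apply Set.infinite_range_of_injective
  intro n n' h
  exact (branch_inj f f n n' h).1

theorem branch_inter {f f' : ℕ → Bool} (h : f ≠ f') : (branch f ∩ branch f').Finite := by
  obtain ⟨i, hi⟩ := Function.ne_iff.mp h
  refine ((Set.finite_Iic i).image (fun n => Encodable.encode ((List.range n).map f))).subset ?_
  rintro x ⟨⟨n, hn⟩, ⟨n', hn'⟩⟩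
  refine ⟨n, ?_, hn⟩
  have := branch_inj f f' n n' (hn.trans hn'.symm)
  by_contra hcon
  simp only [Set.mem_Iic, not_le] at hcon
  exact hi (this.2 i hcon)

/-- (from the starting file `NeverCountable`) infinitely many Q-points give at least `𝔠` -/
theorem cont_le : Cardinal.mk (Quotient isoSetoid) < Cardinal.aleph0 ∨
    Cardinal.continuum ≤ Cardinal.mk (Quotient isoSetoid) := by
  by_contra hcon
  push Not at hcon
  obtain ⟨hinf, hlt⟩ := hcon
  -- an infinite sequence of pairwise non-isomorphic Q-points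
  obtain ⟨e⟩ : Nonempty (ℕ ↪ Quotient isoSetoid) := by
    have := Cardinal.infinite_iff.mpr hinf
    exact ⟨Infinite.natEmbedding _⟩
  let V : ℕ → {U : Ultrafilter ℕ // IsQPoint U} := fun k => (e k).out
  let u : ℕ → Ultrafilter ℕ := fun k => (V k).1
  have hVQ : ∀ k, IsQPoint (u k) := fun k => (V k).2
  have hQt : ∀ k, Pool.Agent.Y467.QP.QPt (u k) := fun k => (V k).2
  have hV : ∀ j k, (∃ σ : Equiv.Perm ℕ, (u j).map σ = u k) → j = k := by
    intro j k h
    have h1 : isoSetoid (V j) (V k) := h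
    have h2 : (⟦V j⟧ : Quotient isoSetoid) = ⟦V k⟧ := Quotient.sound h1
    simp only [V, Quotient.out_eq] at h2
    exact e.injective h2
  have hinj : ∀ d b, Function.Injective (fun k => (u k).map (g b d)) := by
    intro d b j k hjk
    exact hV j k (iso_of_map_eq (hVQ j).1 (g b d) (g_fin b d) ((hQt j).sel _ (g_fin b d))
      ((hQt k).sel _ (g_fin b d)) hjk)
  -- a dominating family of minimal size
  obtain ⟨D, hDc, hD⟩ := dNum_mem
  let ι := dNum.ord.ToType
  have hιc : Cardinal.mk ι = Cardinal.mk D := by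
    rw [hDc]
    simp [ι]
  obtain ⟨φ⟩ := Cardinal.eq.mp hιc
  have hseg : ∀ a : ι, Cardinal.mk (Set.Iio a) < dNum := fun a => Cardinal.mk_Iio_toType_ord_lt a
  have hW : ∀ f : ℕ → Bool, ∃ W : Ultrafilter ℕ, branch f ∈ W ∧ (∀ s : Set ℕ, s.Finite → s ∉ W) ∧
      ∀ a : ι, ∀ b, ∃ A ∈ W, Good (fun k => (u k).map (g b (φ a).1)) A := by
    intro f
    exact exists_good_ultra hseg (fun a b k => (u k).map (g b (φ a).1)) (fun a b => hinj _ b)
      (branch f) (branch_infinite f)
  choose W hWb hWf hWg using hW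
  have hWg' : ∀ f, ∀ d ∈ D, ∀ b, ∃ A ∈ W f, Good (fun k => (u k).map (g b d)) A := by
    intro f d hd b
    have := hWg f (φ.symm ⟨d, hd⟩) b
    simpa using this
  have hnp : ∀ f, ∀ n : ℕ, ({n} : Set ℕ) ∉ (W f).bind u := by
    intro f n hn
    rw [bind_mem] at hn
    obtain ⟨k, hk⟩ := Ultrafilter.nonempty_of_mem hn
    exact (hVQ k).1 n hk
  have hQ : ∀ f, IsQPoint ((W f).bind u) := by
    intro f
    show Pool.Agent.Y467.QP.QPt ((W f).bind u)
    apply Pool.Agent.Y467.QP.qPt_of_sel hD (hnp f)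
    intro d hd b
    exact limit_sel (hinj d b) (fun k => (hQt k).sel _ (g_fin b d)) (W f) (hWf f) (hWg' f d hd b)
  let Φ : (ℕ → Bool) → Quotient isoSetoid := fun f => ⟦⟨(W f).bind u, hQ f⟩⟧
  have hΦ : Function.Injective Φ := by
    intro f f' hff
    by_contra hne
    obtain ⟨σ, hσ⟩ : ∃ σ : Equiv.Perm ℕ, ((W f).bind u).map σ = (W f').bind u :=
      Quotient.exact hff
    obtain ⟨d, hd, b, hb⟩ := map_eq_of_iso hD (hnp f) σ
    rw [hσ, bind_map, bind_map] at hb
    exact limit_ne (hinj d b) (W f) (W f') (hWf f) (hWf f') (hWg' f d hd b) (hWg' f' d hd b)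
      (branch f) (branch f') (hWb f) (hWb f') (branch_inter hne) hb
  have hle := Cardinal.mk_le_of_injective hΦ
  have hcard : Cardinal.mk (ℕ → Bool) = Cardinal.continuum := by simp
  rw [hcard] at hle
  exact absurd hle (not_le.mpr hlt)

theorem mk_ultra_le : Cardinal.mk (Ultrafilter ℕ) ≤ 2 ^ Cardinal.continuum := by
  have h1 : Function.Injective (fun U : Ultrafilter ℕ => {s : Set ℕ | s ∈ U}) := by
    intro U V h
    ext s
    exact Set.ext_iff.1 h s
  have h2 := Cardinal.mk_le_of_injective h1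
  have h3 : Cardinal.mk (Set (Set ℕ)) = 2 ^ Cardinal.continuum := by
    rw [Cardinal.mk_set, Cardinal.mk_set, Cardinal.mk_nat, Cardinal.two_power_aleph0]
  rw [h3] at h2
  exact h2

theorem numQ_le : numQ ≤ 2 ^ Cardinal.continuum :=
  (Cardinal.mk_quotient_le.trans (Cardinal.mk_subtype_le _)).trans mk_ultra_le

/-- infinitely many Q-points which are weak P-points give `2 ^ 𝔠` Q-points -/
theorem many (hinf : {x : Quotient isoSetoid | ∃ U, (⟦U⟧ : Quotient isoSetoid) = x ∧
    IsWeakPPoint U.1}.Infinite) : 2 ^ Cardinal.continuum ≤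
      Cardinal.mk {U : Ultrafilter ℕ // IsQPoint U} := by
  classical
  let e := hinf.natEmbedding
  have hex : ∀ k, ∃ U : {U : Ultrafilter ℕ // IsQPoint U}, (⟦U⟧ : Quotient isoSetoid) = (e k).1 ∧
      IsWeakPPoint U.1 := fun k => (e k).2
  choose V hV1 hV2 using hex
  let u : ℕ → Ultrafilter ℕ := fun k => (V k).1
  have hQt : ∀ k, Pool.Agent.Y467.QP.QPt (u k) := fun k => (V k).2
  have hWt : ∀ k, Pool.Agent.Y467.QP.WPt (u k) := fun k => hV2 k
  have hV : ∀ j k, (∃ σ : Equiv.Perm ℕ, (u j).map σ = u k) → j = k := by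
    intro j k h
    have h1 : isoSetoid (V j) (V k) := h
    have h2 : (⟦V j⟧ : Quotient isoSetoid) = ⟦V k⟧ := Quotient.sound h1
    rw [hV1, hV1] at h2
    exact e.injective (Subtype.ext h2)
  have hinj : ∀ d b, Function.Injective (fun k => (u k).map (g b d)) := by
    intro d b j k hjk
    exact hV j k (iso_of_map_eq (hQt j).1 (g b d) (g_fin b d) ((hQt j).sel _ (g_fin b d))
      ((hQt k).sel _ (g_fin b d)) hjk)
  have hgood : ∀ d b, Good (fun k => (u k).map (g b d)) Set.univ := fun d b =>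
    Pool.Agent.Y467.QP.wp_good hQt hWt (g b d) (g_fin b d) (hinj d b)
  obtain ⟨D, _, hD⟩ := dNum_mem
  obtain ⟨d0, hd0, _⟩ := hD (fun _ => 0)
  obtain ⟨Wf, hWf, hWfr⟩ := Pool.Agent.Y467.QP.Posp.exists_free
  have hWfin : ∀ J, ∀ s : Set ℕ, s.Finite → s ∉ Wf J := fun J s hs =>
    nonprincipal_fin (hWfr J) s hs
  have hnp : ∀ J, ∀ n : ℕ, ({n} : Set ℕ) ∉ (Wf J).bind u := by
    intro J n hn
    rw [bind_mem] at hn
    obtain ⟨k, hk⟩ := Ultrafilter.nonempty_of_mem hn
    exact (hQt k).1 n hk
  have hQ : ∀ J, IsQPoint ((Wf J).bind u) := by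
    intro J
    show Pool.Agent.Y467.QP.QPt ((Wf J).bind u)
    apply Pool.Agent.Y467.QP.qPt_of_sel hD (hnp J)
    intro d _ b
    exact limit_sel (hinj d b) (fun k => (hQt k).sel _ (g_fin b d)) (Wf J) (hWfin J)
      ⟨Set.univ, Filter.univ_mem, hgood d b⟩
  have hΨ : Function.Injective (fun J : Set (Set ℕ) =>
      (⟨(Wf J).bind u, hQ J⟩ : {U : Ultrafilter ℕ // IsQPoint U})) := by
    intro J J' hJJ
    by_contra hne
    have hne' : Wf J ≠ Wf J' := fun h => hne (hWf h)
    obtain ⟨s, hs1, hs2⟩ := exists_sep hne'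
    have h1 : (Wf J).bind u = (Wf J').bind u := congrArg Subtype.val hJJ
    have h2 := congrArg (fun U => Ultrafilter.map (g false d0) U) h1
    simp only [bind_map] at h2
    exact limit_ne (hinj d0 false) (Wf J) (Wf J') (hWfin J) (hWfin J')
      ⟨Set.univ, Filter.univ_mem, hgood d0 false⟩ ⟨Set.univ, Filter.univ_mem, hgood d0 false⟩
      s sᶜ hs1 (Ultrafilter.compl_mem_iff_notMem.mpr hs2) (by simp) h2
  have h3 := Cardinal.mk_le_of_injective hΨ
  have h4 : Cardinal.mk (Set (Set ℕ)) = 2 ^ Cardinal.continuum := by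
    rw [Cardinal.mk_set, Cardinal.mk_set, Cardinal.mk_nat, Cardinal.two_power_aleph0]
  rw [h4] at h3
  exact h3

/-- **Theorem.** The number `κ` of Q-points up to isomorphism is finite, or it satisfies
`κ ^ ℵ₀ = κ` (hence is at least the continuum and has uncountable cofinality) and moreover `κ = 2 ^ 𝔠`
unless only finitely many classes of Q-points consist of weak P-points. -/
theorem result : numQ < Cardinal.aleph0 ∨
    (numQ ^ Cardinal.aleph0 = numQ ∧ Cardinal.continuum ≤ numQ ∧
      Cardinal.aleph0 < numQ.ord.cof ∧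
      ({x : Quotient isoSetoid | ∃ U, (⟦U⟧ : Quotient isoSetoid) = x ∧
        IsWeakPPoint U.1}.Finite ∨ numQ = 2 ^ Cardinal.continuum)) := by
  classical
  rcases cont_le with h | h
  · exact Or.inl h
  · right
    have hinf : Cardinal.aleph0 ≤ numQ := Cardinal.aleph0_le_continuum.trans h
    have : Infinite (Quotient isoSetoid) := Cardinal.infinite_iff.mpr hinf
    have h1 : numQ * Cardinal.continuum = numQ := Cardinal.mul_eq_left hinf h
      Cardinal.continuum_ne_zero
    have h2 : numQ ^ Cardinal.aleph0 ≤ numQ := by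
      refine pow_le.trans ?_
      refine (mul_le_mul_left mk_le Cardinal.continuum).trans ?_
      rw [h1, h1]
    have h3 : numQ ^ Cardinal.aleph0 = numQ :=
      le_antisymm h2 (Cardinal.self_le_power _ Cardinal.one_le_aleph0)
    refine ⟨h3, h, ?_, ?_⟩
    · by_contra hcon
      push Not at hcon
      have h4 : numQ < numQ ^ numQ.ord.cof := Cardinal.lt_power_cof_ord hinf
      have h5 : numQ ^ numQ.ord.cof ≤ numQ ^ Cardinal.aleph0 :=
        Cardinal.power_le_power_left (by
          intro h0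
          rw [h0] at hinf
          exact absurd hinf (not_le.mpr Cardinal.aleph0_pos)) hcon
      rw [h3] at h5
      exact absurd h4 (not_lt.mpr h5)
    · by_cases hfin : {x : Quotient isoSetoid | ∃ U, (⟦U⟧ : Quotient isoSetoid) = x ∧
          IsWeakPPoint U.1}.Finite
      · exact Or.inl hfin
      · right
        apply le_antisymm numQ_le
        have h6 := many hfin
        exact h6.trans (mk_le.trans h1.le)

end Pool.Agent.Results.MP_97d187_lc.CountablePowers
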